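import Mathlib

/-!
# Project DP (helper61): definitions and statements for MP_47dd70_an

Diameter rigidity for the Liouville equation `Δu + e^{2u} = 0` on the plane: the diameter of
`e^{2u}|dz|²` is `π` only if `u` is radial or one-dimensional.
-/

namespace Pool.Agent.Q61.DP

open MeasureTheory InnerProductSpace Laplacian Topology Filter Set Metric
open scoped ContDiff ENNReal

/-! ## The objects of the question -/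

/-- Continuous, piecewise `C¹` curves `γ : [0,1] → ℂ = ℝ²`. -/
def PiecewiseC1 (γ : ℝ → ℂ) : Prop :=
  ContinuousOn γ (Icc 0 1) ∧ ∃ (n : ℕ) (t : ℕ → ℝ), Monotone t ∧ t 0 = 0 ∧ t n = 1 ∧
    ∀ i < n, t i < t (i + 1) → ContDiffOn ℝ 1 γ (Icc (t i) (t (i + 1)))

/-- The length of `γ` for the metric `e^{2u}|dz|²`. -/
noncomputable def glength (u : ℂ → ℝ) (γ : ℝ → ℂ) : ℝ :=
  ∫ t in (0:ℝ)..1, Real.exp (u (γ t)) * ‖deriv γ t‖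

/-- The distance of `x` and `y` for the metric `e^{2u}|dz|²`. -/
noncomputable def gdist (u : ℂ → ℝ) (x y : ℂ) : ℝ≥0∞ :=
  ⨅ (γ : ℝ → ℂ) (_ : PiecewiseC1 γ ∧ γ 0 = x ∧ γ 1 = y), ENNReal.ofReal (glength u γ)

/-- The diameter of the plane for the metric `e^{2u}|dz|²`. -/
noncomputable def gdiam (u : ℂ → ℝ) : ℝ≥0∞ := ⨆ (x : ℂ) (y : ℂ), gdist u x y

/-- `C²` solutions of `Δu + e^{2u} = 0` on the plane. -/
def IsSol (u : ℂ → ℝ) : Prop := ContDiff ℝ 2 u ∧ ∀ z, (Δ u) z + Real.exp (2 * u z) = 0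

/-- `u` is radial about some point. -/
def Radial (u : ℂ → ℝ) : Prop := ∃ (x₀ : ℂ) (φ : ℝ → ℝ), ∀ x, u x = φ ‖x - x₀‖

/-- `u` is one-dimensional. -/
def OneDim (u : ℂ → ℝ) : Prop := ∃ (e : ℂ) (f : ℝ → ℝ), ‖e‖ = 1 ∧ ∀ x, u x = f (inner ℝ x e)

/-! ## Developing map -/

/-- A developing pair: `f = b / a` is a locally injective meromorphic function with
`e^u = 2|f'|/(1+|f|²)`; normalised by the Wronskian `a b' - a' b = 1`. -/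
structure Dev (u : ℂ → ℝ) (a b : ℂ → ℂ) : Prop where
  da : Differentiable ℂ a
  db : Differentiable ℂ b
  wr : ∀ z, a z * deriv b z - deriv a z * b z = 1
  nm : ∀ z, ‖a z‖ ^ 2 + ‖b z‖ ^ 2 = 2 * Real.exp (-(u z))

/-- Three dimensional Euclidean space. -/
abbrev E3 := EuclideanSpace ℝ (Fin 3)

/-- The developing map with values in the unit sphere. -/
noncomputable def Bl (a b : ℂ → ℂ) (z : ℂ) : E3 :=
  (‖a z‖ ^ 2 + ‖b z‖ ^ 2)⁻¹ •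
    !₂[2 * (b z * (starRingEnd ℂ) (a z)).re, 2 * (b z * (starRingEnd ℂ) (a z)).im,
      ‖a z‖ ^ 2 - ‖b z‖ ^ 2]

/-- The spherical distance of the developing map from the point `f = 0`. -/
noncomputable def th (a b : ℂ → ℂ) (z : ℂ) : ℝ :=
  Real.arccos ((‖a z‖ ^ 2 - ‖b z‖ ^ 2) / (‖a z‖ ^ 2 + ‖b z‖ ^ 2))

/-- `e1, e2, n` orthonormal. -/
def ON (e1 e2 n : E3) : Prop :=
  ‖e1‖ = 1 ∧ ‖e2‖ = 1 ∧ ‖n‖ = 1 ∧ inner ℝ e1 e2 = 0 ∧ inner ℝ e1 n = 0 ∧ inner ℝ e2 n = 0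

/-- `P` in the frame `e1, e2, n` is given by the pair `a, b`. -/
def FR (P : ℂ → E3) (e1 e2 n : E3) (a b : ℂ → ℂ) : Prop :=
  ON e1 e2 n ∧ ∀ z,
    inner ℝ (P z) e1 * (‖a z‖ ^ 2 + ‖b z‖ ^ 2) = 2 * (b z * (starRingEnd ℂ) (a z)).re ∧
    inner ℝ (P z) e2 * (‖a z‖ ^ 2 + ‖b z‖ ^ 2) = 2 * (b z * (starRingEnd ℂ) (a z)).im ∧
    inner ℝ (P z) n * (‖a z‖ ^ 2 + ‖b z‖ ^ 2) = ‖a z‖ ^ 2 - ‖b z‖ ^ 2

/-- Inverse stereographic projection with `0 ↦ n`. -/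
noncomputable def sg (e1 e2 n : E3) (w : ℂ) : E3 :=
  (1 + ‖w‖ ^ 2)⁻¹ • ((2 * w.re) • e1 + (2 * w.im) • e2 + (1 - ‖w‖ ^ 2) • n)

/-- Stereographic projection with `n ↦ 0`. -/
noncomputable def st (e1 e2 n : E3) (p : E3) : ℂ :=
  ((inner ℝ p e1 : ℝ) + (inner ℝ p e2 : ℝ) * Complex.I) / ((1 + inner ℝ p n : ℝ) : ℂ)

/-! ## Sections over caps -/

/-- Open cap of the unit sphere. -/
def capA (n : E3) (r : ℝ) : Set E3 := {w | ‖w‖ = 1 ∧ InnerProductGeometry.angle w n < r}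

/-- `g` is a continuous section of `P` over `A`. -/
def Sec (P : ℂ → E3) (g : E3 → ℂ) (A : Set E3) : Prop :=
  ContinuousOn g A ∧ ∀ w ∈ A, P (g w) = w

/-- `P` is a local homeomorphism of the plane into the unit sphere. -/
def LH (P : ℂ → E3) : Prop :=
  Continuous P ∧ (∀ z, ‖P z‖ = 1) ∧ ∀ z, ∀ O ∈ 𝓝 z, ∃ ε : ℝ, 0 < ε ∧ ε ≤ Real.pi / 2 ∧
    ∃ k : E3 → ℂ, ContinuousOn k (capA (P z) ε) ∧
      (∀ w ∈ capA (P z) ε, P (k w) = w ∧ k w ∈ O) ∧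
      ∃ O' ∈ 𝓝 z, ∀ z' ∈ O', P z' ∈ capA (P z) ε ∧ k (P z') = z'

/-- Radii (at most `π/2`) of caps around `P z` over which there is a section through `z`. -/
def RadSet (P : ℂ → E3) (z : ℂ) : Set ℝ :=
  {r | 0 < r ∧ r ≤ Real.pi / 2 ∧ ∃ g, Sec P g (capA (P z) r) ∧ g (P z) = z}

/-- The largest such radius. -/
noncomputable def rad (P : ℂ → E3) (z : ℂ) : ℝ := sSup (RadSet P z)

/-- `g` is the section through `z` over the largest cap. -/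
def IsBr (P : ℂ → E3) (z : ℂ) (g : E3 → ℂ) : Prop :=
  Sec P g (capA (P z) (rad P z)) ∧ g (P z) = z

/-- `c` is a singular point of the section through `z`, on the boundary of the largest cap. -/
def Sing (P : ℂ → E3) (z : ℂ) (c : E3) : Prop :=
  ‖c‖ = 1 ∧ InnerProductGeometry.angle c (P z) = rad P z ∧
    ∃ g, IsBr P z g ∧ Tendsto g (𝓝[capA (P z) (rad P z)] c) (cocompact ℂ)

/-- Two singular points of one cap are equal or antipodal. -/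
def NoPair (P : ℂ → E3) : Prop := ∀ z c c', Sing P z c → Sing P z c' → c' = c ∨ c' = -c

/-- No section over a cap of radius larger than `π/2`. -/
def NoBig (P : ℂ → E3) : Prop :=
  ∀ (n : E3) (r : ℝ), ‖n‖ = 1 → Real.pi / 2 < r → ¬ ∃ g, Sec P g (capA n r)

/-- The point at distance `s` from `n` on the great circle through `c` and `n`, in the direction
away from `c`. -/
noncomputable def mv (n c : E3) (s : ℝ) : E3 :=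
  Real.cos s • n - (Real.sin s / Real.sin (InnerProductGeometry.angle c n)) •
    (c - Real.cos (InnerProductGeometry.angle c n) • n)

/-! ## Part 1: existence of the developing pair -/

/-- Second derivative. -/
noncomputable def D2 (v : ℂ → ℝ) (z p q : ℂ) : ℝ := fderiv ℝ (fderiv ℝ v) z p q

/-- The Weyl lemma for the Cauchy–Riemann operator. -/
def S_D1a : Prop := ∀ φ : ℂ → ℂ, Continuous φ →
  (∀ χ : ℂ → ℂ, ContDiff ℝ ∞ χ → HasCompactSupport χ →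
    ∫ z, φ z * (fderiv ℝ χ z 1 + Complex.I * fderiv ℝ χ z Complex.I) = 0) → Differentiable ℂ φ

/-- `4(u_zz - u_z²)`. -/
noncomputable def qd (u : ℂ → ℝ) (z : ℂ) : ℂ :=
  ((D2 u z 1 1 - D2 u z Complex.I Complex.I : ℝ) : ℂ) - 2 * Complex.I * (D2 u z 1 Complex.I : ℝ) -
    ((fderiv ℝ u z 1 : ℝ) - Complex.I * (fderiv ℝ u z Complex.I : ℝ)) ^ 2

/-- Integration by parts for the quadratic differential. -/
def S_D1b : Prop := ∀ u, IsSol u → Continuous (qd u) ∧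
  ∀ χ : ℂ → ℂ, ContDiff ℝ ∞ χ → HasCompactSupport χ →
    ∫ z, qd u z * (fderiv ℝ χ z 1 + Complex.I * fderiv ℝ χ z Complex.I) = 0

/-- The equations of `v = e^{-u}`. -/
def S_D1c : Prop := ∀ u, IsSol u → ∃ v : ℂ → ℝ, (∀ z, v z = Real.exp (-(u z))) ∧ ContDiff ℝ 2 v ∧
  (∀ z, v z * (D2 v z 1 1 + D2 v z Complex.I Complex.I) -
    ((fderiv ℝ v z 1) ^ 2 + (fderiv ℝ v z Complex.I) ^ 2) = 1) ∧
  (∀ z, ((D2 v z 1 1 - D2 v z Complex.I Complex.I : ℝ) : ℂ) -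
    2 * Complex.I * (D2 v z 1 Complex.I : ℝ) = -(qd u z) * v z)

/-- Entire solutions of `y'' = -φ y`. -/
def S_D2 : Prop := ∀ φ : ℂ → ℂ, Differentiable ℂ φ → ∃ y₁ y₂ : ℂ → ℂ,
  Differentiable ℂ y₁ ∧ Differentiable ℂ y₂ ∧ (∀ z, deriv (deriv y₁) z = -φ z * y₁ z) ∧
  (∀ z, deriv (deriv y₂) z = -φ z * y₂ z) ∧ ∀ z, y₁ z * deriv y₂ z - deriv y₁ z * y₂ z = 1

/-- `v` is a sum of products of entire and antientire functions. -/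
def S_D3 : Prop := ∀ (v : ℂ → ℝ) (φ y₁ y₂ : ℂ → ℂ), ContDiff ℝ 2 v →
  Differentiable ℂ φ → Differentiable ℂ y₁ → Differentiable ℂ y₂ →
  (∀ z, deriv (deriv y₁) z = -φ z * y₁ z) → (∀ z, deriv (deriv y₂) z = -φ z * y₂ z) →
  (∀ z, y₁ z * deriv y₂ z - deriv y₁ z * y₂ z = 1) →
  (∀ z, ((D2 v z 1 1 - D2 v z Complex.I Complex.I : ℝ) : ℂ) -
    2 * Complex.I * (D2 v z 1 Complex.I : ℝ) = -4 * φ z * v z) →
  ∃ E₁ E₂ : ℂ → ℂ, Differentiable ℂ E₁ ∧ Differentiable ℂ E₂ ∧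
    ∀ z, (v z : ℂ) = y₁ z * (starRingEnd ℂ) (E₁ z) + y₂ z * (starRingEnd ℂ) (E₂ z)

/-- The developing pair from such a representation. -/
def S_D4 : Prop := ∀ (v : ℂ → ℝ) (y₁ y₂ E₁ E₂ : ℂ → ℂ), ContDiff ℝ 2 v → (∀ z, 0 < v z) →
  Differentiable ℂ y₁ → Differentiable ℂ y₂ → Differentiable ℂ E₁ → Differentiable ℂ E₂ →
  (∀ z, y₁ z * deriv y₂ z - deriv y₁ z * y₂ z = 1) →
  (∀ z, (v z : ℂ) = y₁ z * (starRingEnd ℂ) (E₁ z) + y₂ z * (starRingEnd ℂ) (E₂ z)) →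
  (∀ z, v z * (D2 v z 1 1 + D2 v z Complex.I Complex.I) -
    ((fderiv ℝ v z 1) ^ 2 + (fderiv ℝ v z Complex.I) ^ 2) = 1) →
  ∃ a b : ℂ → ℂ, Differentiable ℂ a ∧ Differentiable ℂ b ∧
    (∀ z, a z * deriv b z - deriv a z * b z = 1) ∧ ∀ z, ‖a z‖ ^ 2 + ‖b z‖ ^ 2 = 2 * v z

/-- Every solution has a developing pair. -/
def S_D5 : Prop := ∀ u, IsSol u → ∃ a b, Dev u a b

/-! ## Part 2: frames, length -/

def S_FRAME : Prop := ∀ u a₀ b₀, Dev u a₀ b₀ → ∀ n : E3, ‖n‖ = 1 →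
  ∃ (e1 e2 : E3) (a b : ℂ → ℂ), Dev u a b ∧ FR (Bl a₀ b₀) e1 e2 n a b

def S_SIG : Prop := ∀ e1 e2 n : E3, ON e1 e2 n →
  Continuous (sg e1 e2 n) ∧
  (∀ w, ‖sg e1 e2 n w‖ = 1 ∧ inner ℝ (sg e1 e2 n w) n = (1 - ‖w‖ ^ 2) / (1 + ‖w‖ ^ 2) ∧
    InnerProductGeometry.angle (sg e1 e2 n w) n = 2 * Real.arctan ‖w‖ ∧
    st e1 e2 n (sg e1 e2 n w) = w) ∧
  (∀ p : E3, ‖p‖ = 1 → p ≠ -n → sg e1 e2 n (st e1 e2 n p) = p) ∧
  ContinuousOn (st e1 e2 n) {p | ‖p‖ = 1 ∧ p ≠ -n} ∧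
  ∀ u a b P, Dev u a b → FR P e1 e2 n a b → (∀ z, ‖P z‖ = 1) →
    (∀ z w, P z = sg e1 e2 n w ↔ b z = w * a z) ∧ (∀ z, P z = -n ↔ a z = 0) ∧
    ∀ z, InnerProductGeometry.angle (P z) n = th a b z

/-- The developing map is a local homeomorphism. -/
def S_LHP : Prop := ∀ u a b, Dev u a b → LH (Bl a b)

/-- `th` in terms of `|b| / |a|`, and continuity. -/
def S_TH : Prop := ∀ u a b, Dev u a b →
  (∀ z, a z ≠ 0 → th a b z = 2 * Real.arctan (‖b z‖ / ‖a z‖)) ∧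
  (∀ z, a z = 0 → b z ≠ 0 ∧ th a b z = Real.pi) ∧ Continuous (th a b) ∧ Continuous u

/-- Length is at least the variation of the spherical distance from a point. -/
def S_LEN : Prop := ∀ u a b, Dev u a b → ∀ γ, PiecewiseC1 γ → ∀ t ∈ Icc (0:ℝ) 1,
  |th a b (γ t) - th a b (γ 0)| + |th a b (γ 1) - th a b (γ t)| ≤ glength u γ

/-- Inverse branches are holomorphic. -/
def S_HOL : Prop := ∀ u a b, Dev u a b → ∀ (U : Set ℂ) (G : ℂ → ℂ), IsOpen U →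
  ContinuousOn G U → (∀ w ∈ U, b (G w) = w * a (G w)) →
  DifferentiableOn ℂ G U ∧ (∀ w ∈ U, a (G w) ≠ 0 ∧ deriv G w = a (G w) ^ 2) ∧ InjOn G U ∧
    ∀ V ⊆ U, IsOpen V → IsOpen (G '' V)

/-- The diameter is at least `π`. -/
def S_LOW : Prop := ∀ u a b, Dev u a b → ENNReal.ofReal Real.pi ≤ gdiam u

/-! ## Part 3: sections of local homeomorphisms into the sphere -/

def S_CONV : Prop := ∀ (n₁ n₂ n₃ : E3) (r₁ r₂ r₃ : ℝ), r₁ ≤ Real.pi / 2 → r₂ ≤ Real.pi / 2 →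
  r₃ ≤ Real.pi / 2 → IsPreconnected (capA n₁ r₁ ∩ capA n₂ r₂ ∩ capA n₃ r₃)

def S_UNIQ : Prop := ∀ P, LH P → ∀ (g g' : E3 → ℂ) (A : Set E3), IsPreconnected A →
  Sec P g A → Sec P g' A → (∃ w ∈ A, g w = g' w) → ∀ w ∈ A, g w = g' w

def S_REG : Prop := ∀ P, LH P → ∀ (n c : E3) (r : ℝ) (g : E3 → ℂ), ‖n‖ = 1 → 0 < r →
  r ≤ Real.pi / 2 → Sec P g (capA n r) → ‖c‖ = 1 → InnerProductGeometry.angle c n = r →
  ¬ Tendsto g (𝓝[capA n r] c) (cocompact ℂ) →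
  ∃ ε : ℝ, 0 < ε ∧ ε ≤ Real.pi / 2 ∧ ∃ k, Sec P k (capA c ε) ∧
    ∀ w ∈ capA n r ∩ capA c ε, k w = g w

def S_GLUE : Prop := ∀ P, LH P → ∀ (n : E3) (r : ℝ) (g : E3 → ℂ) (K : Set E3), ‖n‖ = 1 → 0 < r →
  r ≤ Real.pi / 2 → Sec P g (capA n r) → IsCompact K →
  (∀ c ∈ K, ‖c‖ = 1 ∧ InnerProductGeometry.angle c n = r ∧
    ¬ Tendsto g (𝓝[capA n r] c) (cocompact ℂ)) →
  ∃ ε : ℝ, 0 < ε ∧ ∃ g', Sec P g' (capA n r ∪ ⋃ c ∈ K, capA c ε) ∧ ∀ w ∈ capA n r, g' w = g w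

def S_RAD : Prop := ∀ P, LH P → ∀ z, rad P z ∈ RadSet P z

def S_TRI : Prop := ∀ P, LH P → Continuous (rad P) ∧
  (∀ z g w, IsBr P z g → w ∈ capA (P z) (rad P z) →
    P (g w) = w ∧ |rad P (g w) - rad P z| ≤ InnerProductGeometry.angle w (P z) ∧
    ∀ g', IsBr P (g w) g' → ∀ p ∈ capA (P z) (rad P z) ∩ capA w (rad P (g w)), g' p = g p) ∧
  (∀ z g A, Sec P g A → (∃ r, 0 < r ∧ capA (P z) r ⊆ A) → g (P z) = z →
    ∀ᶠ z' in 𝓝 z, P z' ∈ A ∧ g (P z') = z')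

def S_NOTIN : Prop := ∀ P, LH P → ∀ z g w c, IsBr P z g → w ∈ capA (P z) (rad P z) →
  Sing P z c → rad P (g w) ≤ InnerProductGeometry.angle c w

def S_STAY : Prop := ∀ P, LH P → ∀ z g w c, IsBr P z g → w ∈ capA (P z) (rad P z) →
  Sing P z c → rad P (g w) = InnerProductGeometry.angle c w → Sing P (g w) c

def S_CLOSED : Prop := ∀ P, LH P → ∀ (z : ℕ → ℂ) (c : ℕ → E3) (z₀ : ℂ) (c₀ : E3),
  Tendsto z atTop (𝓝 z₀) → Tendsto c atTop (𝓝 c₀) → (∀ k, Sing P (z k) (c k)) → Sing P z₀ c₀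

def S_NE : Prop := ∀ P, LH P → ∀ z, rad P z < Real.pi / 2 → ∃ c, Sing P z c

def S_Q : Prop := ∀ P, LH P → NoPair P → NoBig P → ∀ z, rad P z = Real.pi / 2 →
  ∃ c, Sing P z c ∧ Sing P z (-c)

def S_MV : Prop := ∀ n c : E3, ‖n‖ = 1 → ‖c‖ = 1 → 0 < InnerProductGeometry.angle c n →
  InnerProductGeometry.angle c n < Real.pi →
  (∀ s, ‖mv n c s‖ = 1) ∧ Continuous (mv n c) ∧ mv n c 0 = n ∧
  (∀ s, |s| ≤ Real.pi → InnerProductGeometry.angle (mv n c s) n = |s|) ∧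
  (∀ s, 0 ≤ s → InnerProductGeometry.angle c n + s ≤ Real.pi →
    InnerProductGeometry.angle c (mv n c s) = InnerProductGeometry.angle c n + s) ∧
  (∀ s t, 0 ≤ s → InnerProductGeometry.angle c n + s < Real.pi →
    mv (mv n c s) c t = mv n c (s + t)) ∧
  (∀ (t : ℝ) (p : E3), 0 ≤ t → InnerProductGeometry.angle c n + t ≤ Real.pi → ‖p‖ = 1 →
    InnerProductGeometry.angle p n ≤ t →
    InnerProductGeometry.angle c n + t ≤ InnerProductGeometry.angle c p → p = mv n c t)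

def S_DL : Prop := ∀ P, LH P → NoPair P → ∀ z g c κ, IsBr P z g → rad P z < Real.pi / 2 →
  Sing P z c → κ < 1 → ∀ δ > 0, ∃ s, 0 < s ∧ s < δ ∧
    rad P z + κ * s ≤ rad P (g (mv (P z) c s))

def S_K1 : Prop := ∀ P, LH P → NoPair P → ∀ z g τ, IsBr P z g → 0 < τ → τ ≤ rad P z / 2 →
  rad P z + τ ≤ Real.pi / 2 → ∃ w : E3, ‖w‖ = 1 ∧ InnerProductGeometry.angle w (P z) ≤ τ ∧
    rad P z + τ ≤ rad P (g w)

def S_KS : Prop := ∀ P, LH P → NoPair P → ∀ z g c τ, IsBr P z g → Sing P z c → 0 < τ →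
  τ ≤ rad P z / 2 → rad P z + τ ≤ Real.pi / 2 →
  rad P (g (mv (P z) c τ)) = rad P z + τ ∧ Sing P (g (mv (P z) c τ)) c

def S_STAR : Prop := ∀ P, LH P → NoPair P → ∀ z c, Sing P z c →
  ∃ z' g', rad P z' = Real.pi / 2 ∧ Sing P z' c ∧ IsBr P z' g' ∧
    P z ∈ capA (P z') (Real.pi / 2) ∧ g' (P z) = z ∧
    P z' = mv (P z) c (Real.pi / 2 - rad P z)

def S_HH : Prop := ∀ P, LH P → ∀ z g w c, IsBr P z g → rad P z = Real.pi / 2 → Sing P z c →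
  Sing P z (-c) → w ∈ capA (P z) (Real.pi / 2) → rad P (g w) = Real.pi / 2 →
  Sing P (g w) c ∧ Sing P (g w) (-c)

def S_EQ : Prop := ∀ P, LH P → NoPair P → ∀ z g w c, IsBr P z g → rad P z = Real.pi / 2 →
  Sing P z c → Sing P z (-c) → ‖w‖ = 1 → InnerProductGeometry.angle w (P z) < Real.pi / 4 →
  inner ℝ w c = 0 → rad P (g w) = Real.pi / 2 ∧ Sing P (g w) c ∧ Sing P (g w) (-c)

def S_MER : Prop := ∀ P, LH P → ∀ z g c θ, IsBr P z g → rad P z = Real.pi / 2 → Sing P z c →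
  0 ≤ θ → θ < Real.pi / 2 → Sing P (g (Real.cos θ • P z + Real.sin θ • c)) c

def S_OPEN : Prop := ∀ P, LH P → NoPair P → NoBig P → ∀ c : E3,
  IsOpen {z | Sing P z c ∨ Sing P z (-c)}

def S_T1 : Prop := ∀ P, LH P → NoPair P → NoBig P →
  ∃ c : E3, ‖c‖ = 1 ∧ ∀ z, Sing P z c ∨ Sing P z (-c)

/-! ## Part 4: caps of radius larger than `π/2` -/

def S_B1 : Prop := ∀ u a b, Dev u a b → ∀ (T T₁ ε : ℝ) (G : ℂ → ℂ), 0 < T₁ → T₁ < T → 0 < ε →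
  ContinuousOn G (ball 0 T) → (∀ w ∈ ball (0:ℂ) T, b (G w) = w * a (G w)) →
  (∀ z, z ∉ G '' ball 0 T₁ → ε * ‖a z‖ ≤ ‖b z‖) → Radial u

def S_B2 : Prop := ∀ u a b, Dev u a b → ∀ (T T₁ : ℝ) (G : ℂ → ℂ), 1 < T₁ → T₁ < T →
  ContinuousOn G (ball 0 T) → (∀ w ∈ ball (0:ℂ) T, b (G w) = w * a (G w)) →
  (∀ ε > 0, ∃ z, z ∉ G '' ball 0 T₁ ∧ ‖b z‖ < ε * ‖a z‖) →
  ∃ x y, ENNReal.ofReal Real.pi < gdist u x y

def S_B3 : Prop := ∀ u a b, Dev u a b → (∀ x y, gdist u x y ≤ ENNReal.ofReal Real.pi) →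
  ¬ Radial u → NoBig (Bl a b)

/-! ## Part 5: two singular points -/

def S_P1 : Prop := ∀ (G : Set ℂ) (F : ℂ → ℂ) (M : ℝ) (z₀ : ℂ), IsOpen G → z₀ ∉ closure G →
  DiffContOnCl ℂ F G → (∀ z ∈ G, ‖F z‖ ≤ M) → (∀ z ∈ frontier G, (F z).im = 0) →
  ∀ z ∈ G, (F z).im = 0

def S_LIFT : Prop := ∀ θ : ℂ → ℂ, Continuous θ → (∀ z, ‖θ z‖ = 1) →
  ∃ Θ : ℂ → ℝ, Continuous Θ ∧ ∀ z, θ z = Complex.exp (2 * Real.pi * (Θ z) * Complex.I)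

def S_SEP : Prop := ∀ (N : Set ℂ) (τ : ℂ → ℝ), IsOpen N → IsPreconnected N → ContinuousOn τ N →
  IsClosed {z | z ∈ N ∧ τ z = 0} → ∃ G₁ G₂ : Set ℂ, IsOpen G₁ ∧ IsOpen G₂ ∧ Disjoint G₁ G₂ ∧
    G₁ ∪ G₂ = {z | z ∈ N ∧ τ z = 0}ᶜ ∧ (∀ z ∈ N, 0 < τ z → z ∈ G₁) ∧ (∀ z ∈ N, τ z < 0 → z ∈ G₂)

def S_P3 : Prop := ∀ u a b, Dev u a b → ∀ (G : Set ℂ) (z₀ s₀ s₁ : ℂ), IsOpen G → G.Nonempty →
  z₀ ∉ closure G → s₀ ≠ s₁ →
  (∀ z ∈ frontier G, a z ≠ 0 ∧ ((b z / a z - s₀) / (s₁ - s₀)).im = 0) →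
  ∀ M : ℝ, ∃ z ∈ G, M * ‖a z‖ < ‖b z‖

def S_P4 : Prop := ∀ u a b, Dev u a b → ∀ (w₁ s₀ s₁ : ℂ) (ρ : ℝ) (G : ℂ → ℂ), 0 < ρ →
  s₀ ∈ sphere w₁ ρ → s₁ ∈ sphere w₁ ρ → s₀ ≠ s₁ → ‖s₀‖ < 1 → ‖s₁‖ < 1 →
  ContinuousOn G (ball w₁ ρ) → (∀ s ∈ ball w₁ ρ, b (G s) = s * a (G s)) →
  Tendsto G (𝓝[ball w₁ ρ] s₀) (cocompact ℂ) → Tendsto G (𝓝[ball w₁ ρ] s₁) (cocompact ℂ) →
  ∃ x y, ENNReal.ofReal Real.pi < gdist u x y

def S_P5 : Prop := ∀ u a b, Dev u a b → (∀ x y, gdist u x y ≤ ENNReal.ofReal Real.pi) →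
  NoPair (Bl a b)

/-! ## Part 6: the exponential case -/

def S_E1 : Prop := ∀ u a b P e1 e2 n, Dev u a b → FR P e1 e2 n a b → LH P →
  (∀ z, Sing P z n ∨ Sing P z (-n)) →
  (∀ z, a z ≠ 0 ∧ b z ≠ 0) ∧ ∀ z ζ₀, b z = Complex.exp ζ₀ * a z →
    ∃ k : ℂ → ℂ, ContinuousOn k (ball ζ₀ (1 / 2)) ∧ k ζ₀ = z ∧
      ∀ ζ ∈ ball ζ₀ (1 / 2), b (k ζ) = Complex.exp ζ * a (k ζ)

def S_E2 : Prop := ∀ h : ℂ → ℂ, Differentiable ℂ h → (∀ z, deriv h z ≠ 0) →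
  (∀ z, ∃ k : ℂ → ℂ, ContinuousOn k (ball (h z) (1 / 2)) ∧ k (h z) = z ∧
    ∀ ζ ∈ ball (h z) (1 / 2), h (k ζ) = ζ) → ∃ α β : ℂ, α ≠ 0 ∧ ∀ z, h z = α * z + β

def S_E3 : Prop := ∀ F : ℂ → ℂ, Differentiable ℂ F → (∀ z, F z ≠ 0) →
  ∃ h : ℂ → ℂ, Differentiable ℂ h ∧ ∀ z, F z = Complex.exp (h z)

def S_E4 : Prop := ∀ u a b, Dev u a b → ∀ α β : ℂ, α ≠ 0 →
  (∀ z, b z = Complex.exp (α * z + β) * a z) → OneDim u

def S_E5 : Prop := ∀ u a b, Dev u a b →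
  (∃ c : E3, ‖c‖ = 1 ∧ ∀ z, Sing (Bl a b) z c ∨ Sing (Bl a b) z (-c)) → OneDim u

/-! ## Part 7: the converse -/

def S_C1 : Prop := ∀ u, IsSol u → Radial u → ∃ (l : ℝ) (x₀ : ℂ), 0 < l ∧
  ∀ x, u x = Real.log (2 * l / (1 + l ^ 2 * ‖x - x₀‖ ^ 2))

def S_C2 : Prop := ∀ u, IsSol u → OneDim u → ∃ (e : ℂ) (c t₀ : ℝ), ‖e‖ = 1 ∧ 0 < c ∧
  ∀ x, u x = Real.log (c / Real.cosh (c * (inner ℝ x e - t₀)))

def S_C3 : Prop := ∀ (l : ℝ) (x₀ : ℂ), 0 < l → ∀ x y : ℂ,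
  gdist (fun x => Real.log (2 * l / (1 + l ^ 2 * ‖x - x₀‖ ^ 2))) x y ≤ ENNReal.ofReal Real.pi

def S_C4 : Prop := ∀ (e : ℂ) (c t₀ : ℝ), ‖e‖ = 1 → 0 < c → ∀ x y : ℂ,
  gdist (fun x => Real.log (c / Real.cosh (c * (inner ℝ x e - t₀)))) x y ≤
    ENNReal.ofReal Real.pi

/-- The final result. -/
def S_FINAL : Prop := ∀ u, IsSol u → (gdiam u = ENNReal.ofReal Real.pi ↔ Radial u ∨ OneDim u)

end Pool.Agent.Q61.DP
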